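import Pool.Agent.H6.FIB.TargetsP

set_option autoImplicit false
set_option linter.unusedVariables false

namespace Pool.Agent.H34.FIB

open FI AMc AMt

theorem pf_RMU (h1 : T_SOL) : T_RMU := by
  intro T Q _ _ _ _ f hf
  obtain ⟨hs, -, -, -⟩ := h1 T
  have hN := (h1 f.ker).2.1
  have hQ := (h1 Q).2.1
  have e1 : ((sol T).map f).index = (f.ker ⊔ sol T).index := by
    rw [Subgroup.index_map, sup_comm, MonoidHom.range_eq_top.2 hf, Subgroup.index_top, mul_one]
  have e2 : (sol T).relIndex (f.ker ⊔ sol T) = (sol T).relIndex f.ker :=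
    Subgroup.relIndex_sup_right _ _
  have e3 : (sol T).relIndex (f.ker ⊔ sol T) * (f.ker ⊔ sol T).index = (sol T).index :=
    Subgroup.relIndex_mul_index le_sup_right
  have hn1 : ((sol T).subgroupOf f.ker).Normal := (sol_normal T).comap _
  have hs1 : Group.IsSolvable ((sol T).subgroupOf f.ker) := by
    have hinj : Function.Injective (f.ker.subtype.subgroupComap (sol T)) := by
      intro a b hab
      have h := congrArg Subtype.val hab
      exact Subtype.ext (Subtype.ext h)
    have := hs
    exact Group.isSolvable_of_isSolvable_injective hinj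
  have hn2 : ((sol T).map f).Normal := (sol_normal T).map f hf
  have hs2 : Group.IsSolvable ((sol T).map f) := by
    have := hs
    exact Group.isSolvable_of_surjective (f.subgroupMap_surjective (sol T))
  have h3 : (sol f.ker).index ≤ ((sol T).subgroupOf f.ker).index :=
    Nat.le_of_dvd (Nat.pos_of_ne_zero Subgroup.index_ne_zero_of_finite)
      (Subgroup.index_dvd_of_le (hN _ hn1 hs1))
  have h4 : (sol Q).index ≤ ((sol T).map f).index :=
    Nat.le_of_dvd (Nat.pos_of_ne_zero Subgroup.index_ne_zero_of_finite)
      (Subgroup.index_dvd_of_le (hQ _ hn2 hs2))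
  rw [← e3, e2, ← e1]
  exact Nat.mul_le_mul h3 h4

end Pool.Agent.H34.FIB
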