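import Pool.Agent.H6.FIB.TargetsR
import Pool.Agent.H6.FI.Lib

set_option autoImplicit false
set_option linter.unusedVariables false

open scoped ComplexConjugate

namespace Pool.Agent.H34.FIB

open FI AMc AMt

theorem pf_SIG : T_SIG := by
  classical
  intro M _ _ Z σ hσ ν hν χ hχ
  obtain ⟨hχ1, hχ2⟩ := hχ
  obtain ⟨-, -, -, -, hch, -⟩ := FI.Lib.lS1 M ⊤ χ hχ1
  have hnorm := FI.Lib.lS2 M ⊤ χ χ hχ1 hχ1
  rw [if_pos rfl] at hnorm
  refine ⟨?_, ?_⟩
  · apply FI.Lib.lS10 M ⊤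
    · intro g hg
      exact absurd (Subgroup.mem_top g) hg
    · let τ : (⊤ : Subgroup M) →* (⊤ : Subgroup M) :=
        (Subgroup.topEquiv.symm.toMonoidHom.comp σ.toMonoidHom).comp Subgroup.topEquiv.toMonoidHom
      exact FI.Lib.lA4.2.1 (⊤ : Subgroup M) (⊤ : Subgroup M) τ _ hch
    · rw [← hnorm]
      exact Equiv.sum_comp σ.toEquiv (fun g => χ g * starRingEnd ℂ (χ g))
  · have h1 : ∑ g : M, χ (σ g) * starRingEnd ℂ (ν g) = ∑ g : M, χ g * starRingEnd ℂ (ν g) := by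
      apply Finset.sum_congr rfl
      intro g _
      by_cases hg : g ∈ Z
      · rw [hσ g hg]
      · rw [(FI.Lib.lS1 M Z ν hν).1 g hg, map_zero, mul_zero, mul_zero]
    change ∑ g : M, χ (σ g) * starRingEnd ℂ (ν g) ≠ 0
    rw [h1]
    exact hχ2

end Pool.Agent.H34.FIB
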