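import Pool.Agent.H6.FIB.TargetsG

/-!
# MP_7500ea_al, board fib_modules: row SLG
-/

set_option autoImplicit false
set_option linter.unusedVariables false
set_option linter.unusedSectionVars false

namespace Pool.Agent.H34.FIB

open FI AMc AMt

section

variable {F : Type} [Field F]

/-- the matrix `A` is in the subgroup `N` -/
def SlT (N : Subgroup (Matrix.GeneralLinearGroup (Fin 2) F)) (A : Matrix (Fin 2) (Fin 2) F) :
    Prop :=
  ∃ g ∈ N, (g : Matrix (Fin 2) (Fin 2) F) = A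

variable {N : Subgroup (Matrix.GeneralLinearGroup (Fin 2) F)} {A B : Matrix (Fin 2) (Fin 2) F}

theorem SlT.mul (hA : SlT N A) (hB : SlT N B) : SlT N (A * B) := by
  obtain ⟨g, hg, rfl⟩ := hA
  obtain ⟨h, hh, rfl⟩ := hB
  exact ⟨g * h, N.mul_mem hg hh, rfl⟩

theorem SlT.inv (hA : SlT N A) (hAB : A * B = 1) : SlT N B := by
  obtain ⟨g, hg, rfl⟩ := hA
  exact ⟨g⁻¹, N.inv_mem hg, Units.inv_eq_of_mul_eq_one_right hAB⟩

theorem SlT.conj (hN : ∀ s : Matrix.SpecialLinearGroup (Fin 2) F, ∀ n ∈ N,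
      Matrix.SpecialLinearGroup.toGL s * n * (Matrix.SpecialLinearGroup.toGL s)⁻¹ ∈ N)
    (hA : SlT N A) {S S' : Matrix (Fin 2) (Fin 2) F} (hS : S.det = 1) (hSS : S * S' = 1) :
    SlT N (S * A * S') := by
  obtain ⟨g, hg, rfl⟩ := hA
  refine ⟨_, hN ⟨S, hS⟩ g hg, ?_⟩
  have h1 : (((Matrix.SpecialLinearGroup.toGL ⟨S, hS⟩ : Matrix.GeneralLinearGroup (Fin 2) F)⁻¹ :
      Matrix.GeneralLinearGroup (Fin 2) F) : Matrix (Fin 2) (Fin 2) F) = S' :=
    Units.inv_eq_of_mul_eq_one_right hSS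
  rw [Units.val_mul, Units.val_mul, h1]
  rfl

theorem sl_m4 {a b c d a' b' c' d' : F} (h1 : a = a') (h2 : b = b') (h3 : c = c')
    (h4 : d = d') : (!![a, b; c, d] : Matrix (Fin 2) (Fin 2) F) = !![a', b'; c', d'] := by
  rw [h1, h2, h3, h4]

theorem sl_U (x : F) : (!![1, x; 0, 1] : Matrix (Fin 2) (Fin 2) F) * !![1, -x; 0, 1] = 1 := by
  rw [Matrix.mul_fin_two, Matrix.one_fin_two]
  exact sl_m4 (by ring) (by ring) (by ring) (by ring)

theorem sl_L (x : F) : (!![1, 0; x, 1] : Matrix (Fin 2) (Fin 2) F) * !![1, 0; -x, 1] = 1 := by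
  rw [Matrix.mul_fin_two, Matrix.one_fin_two]
  exact sl_m4 (by ring) (by ring) (by ring) (by ring)

theorem sl_W : (!![0, 1; -1, 0] : Matrix (Fin 2) (Fin 2) F) * !![0, -1; 1, 0] = 1 := by
  rw [Matrix.mul_fin_two, Matrix.one_fin_two]
  exact sl_m4 (by ring) (by ring) (by ring) (by ring)

/-- the first step: an element with non-zero entry at the place `(2, 1)` -/
theorem sl_step1 (hN : ∀ s : Matrix.SpecialLinearGroup (Fin 2) F, ∀ n ∈ N,
      Matrix.SpecialLinearGroup.toGL s * n * (Matrix.SpecialLinearGroup.toGL s)⁻¹ ∈ N)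
    {α β γ δ : F} (h : SlT N !![α, β; γ, δ]) (hne : ¬ (β = 0 ∧ γ = 0 ∧ α = δ)) :
    ∃ α' β' γ' δ' : F, SlT N !![α', β'; γ', δ'] ∧ γ' ≠ 0 := by
  by_cases hγ : γ = 0
  · by_cases hβ : β = 0
    · refine ⟨α, 0, α - δ, δ, ?_, fun h' => hne ⟨hβ, hγ, sub_eq_zero.1 h'⟩⟩
      have h1 := h.conj hN (S := !![1, 0; 1, 1]) (S' := !![1, 0; -1, 1])
        (by rw [Matrix.det_fin_two_of]; ring) (sl_L 1)
      rw [Matrix.mul_fin_two, Matrix.mul_fin_two, hβ, hγ] at h1
      rw [sl_m4 (a' := α) (b' := 0) (c' := α - δ) (d' := δ) (by ring) (by ring) (by ring)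
        (by ring)] at h1
      exact h1
    · refine ⟨δ, -γ, -β, α, ?_, neg_ne_zero.2 hβ⟩
      have h1 := h.conj hN (S := !![0, 1; -1, 0]) (S' := !![0, -1; 1, 0])
        (by rw [Matrix.det_fin_two_of]; ring) sl_W
      rw [Matrix.mul_fin_two, Matrix.mul_fin_two] at h1
      rw [sl_m4 (a' := δ) (b' := -γ) (c' := -β) (d' := α) (by ring) (by ring) (by ring)
        (by ring)] at h1
      exact h1
  · exact ⟨α, β, γ, δ, h, hγ⟩

/-- the second step: the entry at the place `(1, 1)` is zero -/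
theorem sl_step2 (hN : ∀ s : Matrix.SpecialLinearGroup (Fin 2) F, ∀ n ∈ N,
      Matrix.SpecialLinearGroup.toGL s * n * (Matrix.SpecialLinearGroup.toGL s)⁻¹ ∈ N)
    {α β γ δ : F} (h : SlT N !![α, β; γ, δ]) (hγ : γ ≠ 0) :
    ∃ b c t : F, SlT N !![0, b; c, t] ∧ b ≠ 0 ∧ c ≠ 0 := by
  have h1 := h.conj hN (S := !![1, -α / γ; 0, 1]) (S' := !![1, -(-α / γ); 0, 1])
    (by rw [Matrix.det_fin_two_of]; ring) (sl_U (-α / γ))
  rw [Matrix.mul_fin_two, Matrix.mul_fin_two,
    sl_m4 (a' := 0) (b' := β - α * δ / γ) (c' := γ) (d' := δ + α) (by field_simp; ring)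
      (by field_simp; ring) (by ring) (by field_simp; ring)] at h1
  refine ⟨_, _, _, h1, ?_, hγ⟩
  intro hb
  obtain ⟨g, hg, hgA⟩ := h1
  have h2 : IsUnit (g : Matrix (Fin 2) (Fin 2) F).det := (Matrix.isUnit_iff_isUnit_det _).1 g.isUnit
  rw [hgA, Matrix.det_fin_two_of, hb] at h2
  simp at h2

/-- the third step: the lower transvections -/
theorem sl_step3 (h2 : (2 : F) ≠ 0) (h15 : (15 : F) ≠ 0)
    (hN : ∀ s : Matrix.SpecialLinearGroup (Fin 2) F, ∀ n ∈ N,
      Matrix.SpecialLinearGroup.toGL s * n * (Matrix.SpecialLinearGroup.toGL s)⁻¹ ∈ N)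
    {b c t : F} (h : SlT N !![0, b; c, t]) (hb : b ≠ 0) (hc : c ≠ 0) (z : F) :
    SlT N !![1, 0; z, 1] := by
  have h4 : (4 : F) ≠ 0 := by
    have : (4 : F) = 2 * 2 := by norm_num
    rw [this]
    exact mul_ne_zero h2 h2
  have h16 : (16 : F) ≠ 0 := by
    have : (16 : F) = 4 * 4 := by norm_num
    rw [this]
    exact mul_ne_zero h4 h4
  -- the inverse of the given element
  have a1 : SlT N !![-t / (b * c), 1 / c; 1 / b, 0] := by
    refine h.inv ?_
    rw [Matrix.mul_fin_two, Matrix.one_fin_two]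
    exact sl_m4 (by field_simp; ring) (by ring) (by field_simp; ring) (by field_simp; ring)
  have a2 : SlT N !![0, 4 * b; c / 4, t] := by
    have h1 := h.conj hN (S := !![2, 0; 0, 1 / 2]) (S' := !![1 / 2, 0; 0, 2])
      (by rw [Matrix.det_fin_two_of]; field_simp; ring)
      (by rw [Matrix.mul_fin_two, Matrix.one_fin_two]
          exact sl_m4 (by field_simp; ring) (by ring) (by ring) (by field_simp; ring))
    rw [Matrix.mul_fin_two, Matrix.mul_fin_two,
      sl_m4 (a' := 0) (b' := 4 * b) (c' := c / 4) (d' := t) (by ring) (by ring)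
        (by field_simp; ring) (by field_simp; ring)] at h1
    exact h1
  have a3 : SlT N !![4, 0; 3 * t / (4 * b), 1 / 4] := by
    have h1 := a2.mul a1
    rw [Matrix.mul_fin_two,
      sl_m4 (a' := 4) (b' := 0) (c' := 3 * t / (4 * b)) (d' := 1 / 4) (by field_simp; ring)
        (by ring) (by field_simp; ring) (by field_simp; ring)] at h1
    exact h1
  have a4 : SlT N !![1 / 4, 0; -(3 * t / (4 * b)), 4] := by
    refine a3.inv ?_
    rw [Matrix.mul_fin_two, Matrix.one_fin_two]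
    exact sl_m4 (by field_simp; ring) (by ring) (by field_simp; ring) (by field_simp; ring)
  have a5 := a4.conj hN (S := !![1, 0; -(16 * z / 15), 1]) (S' := !![1, 0; -(-(16 * z / 15)), 1])
    (by rw [Matrix.det_fin_two_of]; ring) (sl_L _)
  have a6 := a3.mul a5
  rw [Matrix.mul_fin_two, Matrix.mul_fin_two, Matrix.mul_fin_two,
    sl_m4 (a' := 1) (b' := 0) (c' := z) (d' := 1) (by field_simp; ring)
      (by ring) (by field_simp; ring) (by field_simp; ring)] at a6
  exact a6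

/-- the upper transvections -/
theorem sl_step4 (hN : ∀ s : Matrix.SpecialLinearGroup (Fin 2) F, ∀ n ∈ N,
      Matrix.SpecialLinearGroup.toGL s * n * (Matrix.SpecialLinearGroup.toGL s)⁻¹ ∈ N)
    (h : ∀ z : F, SlT N !![1, 0; z, 1]) (z : F) : SlT N !![1, z; 0, 1] := by
  have h1 := (h (-z)).conj hN (S := !![0, 1; -1, 0]) (S' := !![0, -1; 1, 0])
    (by rw [Matrix.det_fin_two_of]; ring) sl_W
  rw [Matrix.mul_fin_two, Matrix.mul_fin_two,
    sl_m4 (a' := 1) (b' := z) (c' := 0) (d' := 1) (by ring) (by ring) (by ring) (by ring)] at h1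
  exact h1

/-- the transvections generate the special linear group -/
theorem sl_gen (hL : ∀ z : F, SlT N !![1, 0; z, 1]) (hU : ∀ z : F, SlT N !![1, z; 0, 1])
    {a b c d : F} (hdet : a * d - b * c = 1) : SlT N !![a, b; c, d] := by
  have key : ∀ {a b c d : F}, a * d - b * c = 1 → c ≠ 0 → SlT N !![a, b; c, d] := by
    intro a b c d h hc
    have h1 := ((hU ((a - 1) / c)).mul (hL c)).mul (hU ((d - 1) / c))
    have e1 : b = (a * d - 1) / c := by
      field_simp
      linear_combination -h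
    rw [Matrix.mul_fin_two, Matrix.mul_fin_two,
      sl_m4 (a' := a) (b' := b) (c' := c) (d' := d) (by field_simp; ring)
        (by rw [e1]; field_simp; ring) (by ring) (by field_simp; ring)] at h1
    exact h1
  by_cases hc : c = 0
  · have ha : a ≠ 0 := by
      rintro rfl
      rw [hc] at hdet
      simp at hdet
    have h1 := (hL (-1)).mul (key (a := a) (b := b) (c := a + c) (d := b + d)
      (by linear_combination hdet) (by rw [hc, add_zero]; exact ha))
    rw [Matrix.mul_fin_two, sl_m4 (a' := a) (b' := b) (c' := c) (d' := d) (by ring) (by ring)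
      (by ring) (by ring)] at h1
    exact h1
  · exact key hdet hc

end

theorem sl_two {q : ℕ} (hq : q.Prime) (h7 : 7 ≤ q) : (2 : ZMod q) ≠ 0 ∧ (15 : ZMod q) ≠ 0 := by
  have key : ∀ n : ℕ, 0 < n → ((n : ℕ) : ZMod q) = 0 → q ∣ n := fun n _ h =>
    (ZMod.natCast_eq_zero_iff n q).1 h
  constructor
  · intro h
    have h1 : q ∣ 2 := key 2 two_pos (by exact_mod_cast h)
    have := Nat.le_of_dvd two_pos h1
    omega
  · intro h
    have h1 : q ∣ 3 * 5 := key 15 (by norm_num) (by exact_mod_cast h)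
    rcases (Nat.Prime.dvd_mul hq).1 h1 with h2 | h2
    · have := Nat.le_of_dvd (by norm_num) h2
      omega
    · have := Nat.le_of_dvd (by norm_num) h2
      omega

theorem pf_SLG : T_SLG := by
  intro q hq h7 N hN hne
  have : Fact q.Prime := ⟨hq⟩
  obtain ⟨h2, h15⟩ := sl_two hq h7
  let C := Subgroup.center (Matrix.GeneralLinearGroup (Fin 2) (ZMod q))
  set M : Subgroup (Matrix.GeneralLinearGroup (Fin 2) (ZMod q)) :=
    N.comap (QuotientGroup.mk' C) with hM
  have hMN : ∀ s : Matrix.SpecialLinearGroup (Fin 2) (ZMod q), ∀ n ∈ M,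
      Matrix.SpecialLinearGroup.toGL s * n * (Matrix.SpecialLinearGroup.toGL s)⁻¹ ∈ M := by
    intro s n hn
    rw [hM, Subgroup.mem_comap] at hn ⊢
    rw [map_mul, map_mul, map_inv]
    exact hN _ (Subgroup.mem_map_of_mem _ ⟨s, rfl⟩) _ hn
  obtain ⟨x, hx1⟩ := Subgroup.ne_bot_iff_exists_ne_one.1 hne
  obtain ⟨g, hg⟩ := QuotientGroup.mk'_surjective C (x : PG q)
  have hgM : g ∈ M := by
    rw [hM, Subgroup.mem_comap, hg]
    exact x.2
  have hgC : g ∉ C := by
    intro h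
    apply hx1
    apply Subtype.ext
    rw [← hg]
    exact (QuotientGroup.eq_one_iff g).2 h
  have hT : SlT M !![(g : Matrix (Fin 2) (Fin 2) (ZMod q)) 0 0, (g : Matrix (Fin 2) (Fin 2) (ZMod q)) 0 1;
      (g : Matrix (Fin 2) (Fin 2) (ZMod q)) 1 0, (g : Matrix (Fin 2) (Fin 2) (ZMod q)) 1 1] :=
    ⟨g, hgM, Matrix.eta_fin_two _⟩
  have hns : ¬ ((g : Matrix (Fin 2) (Fin 2) (ZMod q)) 0 1 = 0 ∧
      (g : Matrix (Fin 2) (Fin 2) (ZMod q)) 1 0 = 0 ∧
      (g : Matrix (Fin 2) (Fin 2) (ZMod q)) 0 0 = (g : Matrix (Fin 2) (Fin 2) (ZMod q)) 1 1) := by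
    rintro ⟨e1, e2, e3⟩
    apply hgC
    refine Matrix.GeneralLinearGroup.mem_center_iff_val_mem_range_scalar.2
      ⟨(g : Matrix (Fin 2) (Fin 2) (ZMod q)) 0 0, ?_⟩
    rw [Matrix.eta_fin_two (g : Matrix (Fin 2) (Fin 2) (ZMod q)), e1, e2, ← e3,
      Matrix.scalar_apply]
    ext i j
    fin_cases i <;> fin_cases j <;> rfl
  obtain ⟨α, β, γ, δ, h3, hγ⟩ := sl_step1 hMN hT hns
  obtain ⟨b, c, t, h4, hb, hc⟩ := sl_step2 hMN h3 hγ
  have hL : ∀ z, SlT M !![1, 0; z, 1] := sl_step3 h2 h15 hMN h4 hb hc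
  have hU : ∀ z, SlT M !![1, z; 0, 1] := sl_step4 hMN hL
  rintro y ⟨k, ⟨s, rfl⟩, rfl⟩
  have hdet : s.1 0 0 * s.1 1 1 - s.1 0 1 * s.1 1 0 = 1 := by
    rw [← Matrix.det_fin_two]
    exact s.2
  obtain ⟨k, hk, hks⟩ := sl_gen hL hU hdet
  have h5 : k = Matrix.SpecialLinearGroup.toGL s := by
    apply Units.ext
    rw [hks]
    exact (Matrix.eta_fin_two s.1).symm
  rw [h5] at hk
  exact hk

end Pool.Agent.H34.FIB
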